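import Pool.Agent.N589.LL.Tasks

/-!
# LL/13: cuspidality of the span of the right translates
-/

open scoped WithZero Polynomial MatrixGroups Topology
open IsDedekindDomain RestrictedProduct

noncomputable section

namespace N589LL

namespace Cusp499

lemma upr_add {R : Type} [CommRing R] (x y : R) : upr (x + y) = upr x * upr y := by
  apply Units.ext
  ext i j
  fin_cases i <;> fin_cases j <;>
    simp [upr, Matrix.mul_apply, Fin.sum_univ_two, add_comm]

lemma nA_add (x y : Adele) : nA (x + y) = nA x * nA y := by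
  ext1 v
  exact upr_add _ _

lemma nA_zero : nA 0 = 1 := by
  have h := nA_add 0 0
  rw [add_zero] at h
  exact (left_eq_mul.1 h)

lemma nA_neg (x : Adele) : nA (-x) = (nA x)⁻¹ := by
  rw [eq_inv_iff_mul_eq_one, ← nA_add, neg_add_cancel, nA_zero]

lemma nA_diagK (k : K) : nA (diagK k) = diag (upr k) := by
  ext1 v
  apply Units.ext
  ext i j
  fin_cases i <;> fin_cases j <;> simp [nA, upr, diagK]

lemma continuous_upr (v : Place) : Continuous (fun x : Kv v => (upr x : Gv v)) := by
  rw [Units.continuous_iff]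
  constructor
  · refine continuous_matrix fun i j => ?_
    fin_cases i <;> fin_cases j <;> simp [upr] <;> fun_prop
  · refine continuous_matrix fun i j => ?_
    fin_cases i <;> fin_cases j <;> simp [upr] <;> fun_prop

lemma upr_mapsTo (v : Place) : Set.MapsTo (fun x : Kv v => (upr x : Gv v)) (Ov v) (Cv v) := by
  intro x hx
  refine ⟨fun i j => ?_, fun i j => ?_⟩
  · fin_cases i <;> fin_cases j
    exacts [Subring.one_mem (Ov v), hx, Subring.zero_mem (Ov v), Subring.one_mem (Ov v)]
  · fin_cases i <;> fin_cases j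
    exacts [Subring.one_mem (Ov v), Subring.neg_mem (Ov v) hx, Subring.zero_mem (Ov v),
      Subring.one_mem (Ov v)]

lemma continuous_nA : Continuous nA := by
  have h := RestrictedProduct.mapAlong_continuous (𝓕₁ := Filter.cofinite) (𝓕₂ := Filter.cofinite)
    (fun v : Place => Kv v) (fun v : Place => Gv v)
    (A₁ := fun v => (Ov v : Set (Kv v))) (A₂ := fun v => (Cv v : Set (Gv v)))
    id Filter.tendsto_id (fun v x => upr x)
    (Filter.Eventually.of_forall fun v => upr_mapsTo v) continuous_upr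
  exact h

/-- The additive subgroup of all adeles `y` with `g⁻¹ n(y) g ∈ U`. -/
def og (U : Subgroup GA) (g : GA) : AddSubgroup Adele where
  carrier := {y | g⁻¹ * nA y * g ∈ U}
  add_mem' := by
    intro a b ha hb
    simp only [Set.mem_ofPred_eq] at *
    have : g⁻¹ * nA (a + b) * g = (g⁻¹ * nA a * g) * (g⁻¹ * nA b * g) := by
      rw [nA_add]; group
    rw [this]; exact mul_mem ha hb
  zero_mem' := by
    simp only [Set.mem_ofPred_eq, nA_zero]
    have : g⁻¹ * 1 * g = 1 := by group
    rw [this]; exact one_mem _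
  neg_mem' := by
    intro a ha
    simp only [Set.mem_ofPred_eq] at *
    have : g⁻¹ * nA (-a) * g = (g⁻¹ * nA a * g)⁻¹ := by
      rw [nA_neg]; group
    rw [this]; exact inv_mem ha

lemma isOpen_og [IsTopologicalGroup GA] (U : Subgroup GA) (hU : IsOpen (U : Set GA)) (g : GA) :
    IsOpen (og U g : Set Adele) := by
  have h : Continuous fun y : Adele => g⁻¹ * nA y * g :=
    (continuous_const.mul continuous_nA).mul continuous_const
  exact hU.preimage h

/-! ### Sums over quotients -/

section sums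

variable {G : Type} [AddCommGroup G]

lemma finsum_shift (L : AddSubgroup G) [Finite (G ⧸ L)] (h : G → ℂ)
    (hL : ∀ x, ∀ y ∈ L, h (x + y) = h x) (y : G) (hy : ∀ x, h (x + y) = - h x) :
    ∑ᶠ c : G ⧸ L, h c.out = 0 := by
  have hH : ∀ a : G, h (Quotient.out (QuotientAddGroup.mk a : G ⧸ L)) = h a := by
    intro a
    obtain ⟨l, hl⟩ := QuotientAddGroup.mk_out_eq_add L a
    rw [hl]
    exact hL a l l.2
  have h2 : ∀ c : G ⧸ L, h (c + (y : G ⧸ L)).out = - h c.out := by
    intro c
    induction c using QuotientAddGroup.induction_on with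
    | H a =>
      rw [← QuotientAddGroup.mk_add, hH, hH, hy]
  have h3 : ∑ᶠ c : G ⧸ L, h c.out = ∑ᶠ c : G ⧸ L, h (c + (y : G ⧸ L)).out := by
    rw [← finsum_comp_equiv (Equiv.addRight (y : G ⧸ L))]
    rfl
  have h4 : ∑ᶠ c : G ⧸ L, h c.out = - ∑ᶠ c : G ⧸ L, h c.out := by
    conv_lhs => rw [h3]
    simp_rw [h2]
    rw [finsum_neg_distrib]
  have h5 : (2 : ℂ) * ∑ᶠ c : G ⧸ L, h c.out = 0 := by
    rw [two_mul]
    nth_rw 2 [h4]
    exact add_neg_cancel _
  simpa using h5

lemma finsum_refine (L' L : AddSubgroup G) (hle : L' ≤ L) [Finite (G ⧸ L')]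
    (h : G → ℂ) (hL : ∀ x, ∀ y ∈ L, h (x + y) = h x)
    (h0 : ∑ᶠ c : G ⧸ L', h c.out = 0) : ∑ᶠ c : G ⧸ L, h c.out = 0 := by
  classical
  have hH : ∀ a : G, h (Quotient.out (QuotientAddGroup.mk a : G ⧸ L)) = h a := by
    intro a
    obtain ⟨l, hl⟩ := QuotientAddGroup.mk_out_eq_add L a
    rw [hl]
    exact hL a l l.2
  have hH' : ∀ a : G, h (Quotient.out (QuotientAddGroup.mk a : G ⧸ L')) = h a := by
    intro a
    obtain ⟨l, hl⟩ := QuotientAddGroup.mk_out_eq_add L' a
    rw [hl]
    exact hL a l (hle l.2)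
  let p : G ⧸ L' →+ G ⧸ L := QuotientAddGroup.map L' L (AddMonoidHom.id G) hle
  have hp : Function.Surjective p := by
    intro c
    induction c using QuotientAddGroup.induction_on with
    | H a => exact ⟨(a : G ⧸ L'), rfl⟩
  have : Finite (G ⧸ L) := Finite.of_surjective p hp
  have := Fintype.ofFinite (G ⧸ L')
  have := Fintype.ofFinite (G ⧸ L)
  rw [finsum_eq_sum_of_fintype] at h0 ⊢
  have h1 : ∀ c : G ⧸ L', h c.out = h (p c).out := by
    intro c
    induction c using QuotientAddGroup.induction_on with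
    | H a =>
      have : p (a : G ⧸ L') = (a : G ⧸ L) := rfl
      rw [this, hH, hH']
  simp_rw [h1] at h0
  rw [Finset.sum_comp (fun c : G ⧸ L => h c.out) p] at h0
  have himg : Finset.image p (Finset.univ : Finset (G ⧸ L')) = Finset.univ :=
    Finset.image_univ_of_surjective hp
  rw [himg] at h0
  have hfib : ∀ c : G ⧸ L, (Finset.univ.filter fun a : G ⧸ L' => p a = c).card =
      (Finset.univ.filter fun a : G ⧸ L' => p a = 0).card := by
    intro c
    exact AddMonoidHom.card_fiber_eq_of_mem_range p (hp c) (hp 0)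
  simp_rw [hfib] at h0
  rw [← Finset.smul_sum] at h0
  have hne : (Finset.univ.filter fun a : G ⧸ L' => p a = 0).card ≠ 0 := by
    rw [Finset.card_ne_zero]
    exact ⟨0, by simp⟩
  rcases smul_eq_zero.1 h0 with h0 | h0
  · exact absurd h0 hne
  · exact h0

end sums

/-- The additive group `K ⊆ A_K`. -/
abbrev KK : AddSubgroup Adele := diagK.range.toAddSubgroup

lemma left_KK {F : GA → ℂ} (hF : ∀ (γ : GL (Fin 2) K) (g : GA), F (diag γ * g) = F g)
    (g : GA) (x : Adele) (y : Adele) (hy : y ∈ KK) : F (nA (x + y) * g) = F (nA x * g) := by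
  obtain ⟨k, rfl⟩ := hy
  have : nA (x + diagK k) * g = diag (upr k) * (nA x * g) := by
    rw [add_comm, nA_add, nA_diagK, mul_assoc]
  exact (congrArg F this).trans (hF _ _)

lemma inv_sup {F : GA → ℂ} (hF : ∀ (γ : GL (Fin 2) K) (g : GA), F (diag γ * g) = F g)
    (g : GA) (o : AddSubgroup Adele)
    (ho : ∀ x, ∀ y ∈ o, F (nA (x + y) * g) = F (nA x * g)) :
    ∀ x, ∀ y ∈ o ⊔ KK, F (nA (x + y) * g) = F (nA x * g) := by
  intro x y hy
  obtain ⟨a, ha, b, hb, rfl⟩ := AddSubgroup.mem_sup.1 hy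
  rw [← add_assoc, left_KK hF g _ b hb, ho x a ha]

/-- The property shown for all functions in the span. -/
def Good (F : GA → ℂ) : Prop :=
  (∀ (γ : GL (Fin 2) K) (g : GA), F (diag γ * g) = F g) ∧
  ∀ g : GA, ∃ o : AddSubgroup Adele, IsOpen (o : Set Adele) ∧
    (∀ x, ∀ y ∈ o, F (nA (x + y) * g) = F (nA x * g)) ∧
    ∀ o' : AddSubgroup Adele, o' ≤ o → IsOpen (o' : Set Adele) →
      ∑ᶠ c : Adele ⧸ (o' ⊔ KK), F (nA c.out * g) = 0

end Cusp499

open Cusp499

theorem TaskCusp_proof (hA : TaskApprox) (hG : TaskGA) : TaskCusp := by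
  intro f hf hU hy F hF
  obtain ⟨U, hUo, hU⟩ := hU
  have : IsTopologicalGroup GA := hG.1
  have hfin := hA.2
  have key : Good F := by
    unfold cyc at hF
    induction hF using Submodule.span_induction with
    | mem F hF =>
      obtain ⟨g0, rfl⟩ := hF
      have hK : ∀ (γ : GL (Fin 2) K) (g : GA), (Rt GA g0 f) (diag γ * g) = (Rt GA g0 f) g := by
        intro γ g
        change f (diag γ * g * g0) = f (g * g0)
        rw [mul_assoc]; exact hf _ _
      refine ⟨hK, fun g => ?_⟩
      have hinv : ∀ x, ∀ y ∈ og U (g * g0),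
          (Rt GA g0 f) (nA (x + y) * g) = (Rt GA g0 f) (nA x * g) := by
        intro x y hy
        change f (nA (x + y) * g * g0) = f (nA x * g * g0)
        have : nA (x + y) * g * g0 = (nA x * g * g0) * ((g * g0)⁻¹ * nA y * (g * g0)) := by
          rw [nA_add]; group
        rw [this]
        exact hU _ hy _
      refine ⟨og U (g * g0), isOpen_og U hUo _, hinv, ?_⟩
      intro o' ho' hoo
      have := hfin o' hoo
      obtain ⟨y, hy⟩ := hy (g * g0)
      refine finsum_shift (o' ⊔ KK) (fun x => (Rt GA g0 f) (nA x * g)) ?_ y ?_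
      · exact inv_sup hK g o' (fun x y hy => hinv x y (ho' hy))
      · intro x
        change f (nA (x + y) * g * g0) = - f (nA x * g * g0)
        rw [mul_assoc, mul_assoc]
        exact hy x
    | zero =>
      refine ⟨fun _ _ => rfl, fun g => ⟨⊤, isOpen_univ, fun _ _ _ => rfl, ?_⟩⟩
      intro o' _ _
      simp
    | add F₁ F₂ _ _ h₁ h₂ =>
      refine ⟨fun γ g => ?_, fun g => ?_⟩
      · rw [Pi.add_apply, Pi.add_apply, h₁.1, h₂.1]
      · obtain ⟨o₁, ho₁, hi₁, hs₁⟩ := h₁.2 g
        obtain ⟨o₂, ho₂, hi₂, hs₂⟩ := h₂.2 g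
        refine ⟨o₁ ⊓ o₂, ho₁.inter ho₂, fun x y hy => ?_, fun o' ho' hoo => ?_⟩
        · rw [Pi.add_apply, Pi.add_apply, hi₁ x y hy.1, hi₂ x y hy.2]
        · have := hfin o' hoo
          simp only [Pi.add_apply]
          rw [finsum_add_distrib (Set.toFinite _) (Set.toFinite _),
            hs₁ o' (ho'.trans inf_le_left) hoo, hs₂ o' (ho'.trans inf_le_right) hoo, add_zero]
    | smul a F _ h =>
      refine ⟨fun γ g => ?_, fun g => ?_⟩
      · rw [Pi.smul_apply, Pi.smul_apply, h.1]
      · obtain ⟨o₁, ho₁, hi₁, hs₁⟩ := h.2 g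
        refine ⟨o₁, ho₁, fun x y hy => ?_, fun o' ho' hoo => ?_⟩
        · rw [Pi.smul_apply, Pi.smul_apply, hi₁ x y hy]
        · have := hfin o' hoo
          simp only [Pi.smul_apply]
          rw [← smul_finsum, hs₁ o' ho' hoo, smul_zero]
  intro g o ho hinv
  obtain ⟨o₁, ho₁, hi₁, hs₁⟩ := key.2 g
  have hoo : IsOpen ((o ⊓ o₁ : AddSubgroup Adele) : Set Adele) := ho.inter ho₁
  have := hfin (o ⊓ o₁) hoo
  refine finsum_refine ((o ⊓ o₁) ⊔ KK) (o ⊔ KK) (sup_le_sup_right inf_le_left _)
    (fun x => F (nA x * g)) ?_ (hs₁ _ inf_le_right hoo)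
  exact inv_sup key.1 g o hinv

end N589LL
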